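import Pool.Agent.H49.CZ.Stm
import Pool.Agent.H6.GR.Fqg

/-!
# Project CZ (helper49), module DSC: descent of the freeness from a specialisation
-/

set_option autoImplicit false

open MvPolynomial Module Pool.Agent.H77.TF Pool.Agent.H77.GR Pool.Agent.H49.CZ

namespace Pool.Agent.H53.CZ

/-- a multilinear map which vanishes on sets vanishes on the spans -/
theorem multi_zero {k M N : Type} [Field k] [AddCommGroup M] [Module k M] [AddCommGroup N]
    [Module k N] {ι : Type} [DecidableEq ι] (f : MultilinearMap k (fun _ : ι => M) N)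
    (S : ι → Set M) (h : ∀ w : ι → M, (∀ j, w j ∈ S j) → f w = 0) (s : Finset ι) :
    ∀ w : ι → M, (∀ j ∈ s, w j ∈ Submodule.span k (S j)) → (∀ j, j ∉ s → w j ∈ S j) → f w = 0 := by
  induction s using Finset.induction_on with
  | empty => exact fun w _ h2 => h w fun j => h2 j (Finset.notMem_empty j)
  | insert i s hi ih =>
    intro w h1 h2
    have h3 : ∀ x ∈ Submodule.span k (S i), f (Function.update w i x) = 0 := by
      intro x hx
      induction hx using Submodule.span_induction with
      | mem x hx =>
        refine ih _ (fun j hj => ?_) (fun j hj => ?_)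
        · have hji : j ≠ i := fun h => hi (h ▸ hj)
          rw [Function.update_of_ne hji]
          exact h1 j (Finset.mem_insert_of_mem hj)
        · by_cases hji : j = i
          · subst hji
            rw [Function.update_self]
            exact hx
          · rw [Function.update_of_ne hji]
            exact h2 j fun h => (Finset.mem_insert.1 h).elim hji hj
      | zero => exact f.map_update_zero w i
      | add x y _ _ hx hy => rw [f.map_update_add, hx, hy, add_zero]
      | smul c x _ hx => rw [f.map_update_smul, hx, smul_zero]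
    have h4 := h3 (w i) (h1 i (Finset.mem_insert_self _ _))
    rwa [Function.update_eq_self] at h4

theorem t_DSC : S_DSC := by
  classical
  intro K _ n A e hs hsum R AR hA k _ φ hsp he
  subst hA
  obtain ⟨b, hb⟩ := he
  -- a choice with nonzero determinant
  have h1 : ∃ V : Fin 3 → Fin 3 → MvPolynomial (Fin 3) R, (∀ j, V j ∈ LRm AR (e j)) ∧
      (Matrix.of fun j => mapV φ (V j)).det ≠ 0 := by
    by_contra hcon
    push Not at hcon
    let f : MultilinearMap k (fun _ : Fin 3 => Fin 3 → MvPolynomial (Fin 3) k)
        (MvPolynomial (Fin 3) k) :=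
      (Matrix.detRowAlternating (n := Fin 3)
        (R := MvPolynomial (Fin 3) k)).toMultilinearMap.restrictScalars k
    have hf : ∀ w, f w = (Matrix.of w).det := fun w => rfl
    have h2 := multi_zero f
      (fun j => mapV φ '' (LRm AR (e j) : Set (Fin 3 → MvPolynomial (Fin 3) R)))
      (fun w hw => by
        choose V hV hVw using hw
        rw [hf, ← hcon V hV]
        congr 2
        funext j
        exact (hVw j).symm) Finset.univ
      (fun j => (b j : Fin 3 → MvPolynomial (Fin 3) k))
      (fun j _ => hsp j _ ⟨(b j).2, hb j⟩) (fun j hj => absurd (Finset.mem_univ j) hj)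
    exact Pool.Agent.H6.GR.det_basis' _ b h2
  obtain ⟨V, hV, hdV⟩ := h1
  have hinj : Function.Injective (MvPolynomial.map (σ := Fin 3) R.subtype) :=
    map_injective _ R.subtype_injective
  have hd0 : (Matrix.of V).det ≠ 0 := by
    intro h0
    have h2 := Pool.Agent.H6.GR.map_det φ V
    rw [h0, map_zero] at h2
    exact hdV h2.symm
  have hW0 : (Matrix.of fun k => mapV R.subtype (V k)).det ≠ 0 := by
    rw [← Pool.Agent.H6.GR.map_det]
    intro h0
    exact hd0 (hinj (h0.trans (map_zero _).symm))
  have hWm : ∀ k, mapV R.subtype (V k) ∈ LD (mapA R.subtype AR) := by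
    intro k i
    have h2 := map_dvd (MvPolynomial.map (σ := Fin 3) R.subtype) ((hV k).1 i)
    rw [Pool.Agent.H6.GR.map_linR, Pool.Agent.H6.GR.map_evlR] at h2
    exact h2
  have hWh : ∀ k i, (mapV R.subtype (V k) i).IsHomogeneous (e k) := by
    intro k i
    exact ((hV k).2 i).map _
  have hdvd : ∏ i, lin (mapA R.subtype AR i) ∣
      (Matrix.of fun k => mapV R.subtype (V k)).det := by
    refine Pool.Agent.H27.TF.prod_dvd pri hs _ fun i _ => ?_
    exact det K 3 _ (hs.1 i) _ fun k => hWm k i
  have hhd : (Matrix.of fun k => mapV R.subtype (V k)).det.IsHomogeneous n := by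
    rw [← hsum]
    exact Pool.Agent.H27.TF.det_hom hWh
  have hhp : (∏ i, lin (mapA R.subtype AR i)).IsHomogeneous n := by
    have h2 := IsHomogeneous.prod Finset.univ (fun i => lin (mapA R.subtype AR i))
      (fun _ => 1) (fun i _ => Pool.Agent.H27.TF.lin_hom _)
    rwa [Finset.sum_const, smul_eq_mul, mul_one, Finset.card_univ, Fintype.card_fin] at h2
  obtain ⟨c, hc, hdet⟩ := Pool.Agent.H22.TF.eq_C_mul hW0 hhd hhp hdvd
  obtain ⟨b', hb'⟩ := Pool.Agent.H27.TF.sai pri det K 3 (Fin n) _ hs _ c hc hWm hdet
  refine ⟨b', fun j i => ?_⟩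
  rw [hb' j]
  exact hWh j i

end Pool.Agent.H53.CZ
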